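import Pool.Agent.H201.AD.Engine
import Pool.Graph.R_pool_sql_team_seeded_2aa45f1a.Results.MP_fe3691_nt.ExactReductions

/-!
# Szpiro's small points conjecture: boundedly many guesses

Fix `g ≥ 2`. Numbers are used as codes: `k` for pairs `(K, S)` (a number field and a finite set of finite
places), `x` for semi-stable curves `X` of genus `g` over `K` with set of bad reduction places `S`, and `y`
for the points in `X(K̄)`. Question Q1 for the genus `g` says that there is an algorithm which computes from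
`K` and `S` a number `c` such that each of these curves has a point of stable Arakelov height at most `c`.
A computable sequence `K'_0, K'_1, …` of extensions of `K` is given for every `K`.

**Theorem.** The following are equivalent.

1. Question Q1 for the genus `g`.
2. There are a number `l`, an infinite decidable set `r` of numbers `j`, and a partial algorithm which
  produces for every `j` in `r` at most `l` numbers such that one of them, `c` say, has this property: for
  every pair `(K, S)` with code at most `j` there is some `i` such that each of the curves over `K'_i` with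
  set of bad reduction places above `S` has a point of height at most `c`.
3. The same, where it is only required that each of these curves over `K'_i` has a Jacobian isogenous to the
  Jacobian of such a curve with a point of height at most `c`; but now `i ≤ M j` for a computable `M`.
4. The same as (3) with an algorithm which approximates such a number `c` and changes its mind at most `l`
  times for each `j` in `r`.

In (2) and (3) it is not known which of the at most `l` numbers is right, nor how many are produced; and it is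
not known for which fields `K'_i` they are right.
-/

set_option autoImplicit false

namespace Pool.Agent.Results.MP_fe3691_nt.BoundedAdvice

open Pool.Agent.H201.AD
open Pool.Agent.Results.MP_fe3691_nt.ExactReductions (Setting IsSetting small)

/-- every curve for the pair `(K, S)` with code `k` has a point of height at most `c` -/
def SmallPoints (D : Setting) (k c : ℕ) : Prop :=
  ∀ x, D.Good k x → ∃ y, D.pt x y ≤ c

/-- for every curve for the pair `(K, S)` with code `k` there is another one with an isogenous Jacobian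
and with a point of height at most `c` -/
def SmallPointsIsog (D : Setting) (k c : ℕ) : Prop :=
  ∀ x, D.Good k x → ∃ x', D.Good k x' ∧ D.Isog x x' ∧ ∃ y, D.pt x' y ≤ c

variable {D : Setting} {g : ℕ}

lemma smallPoints_of_ext (hD : IsSetting g D) {k i c : ℕ} (h : SmallPoints D (D.ext (k, i)) c) :
    SmallPoints D k c := by
  intro x hx
  obtain ⟨x', h1, h2⟩ := hD.ext_good k i x hx
  exact ExactReductions.range_le h2 (h x' h1)

lemma small_of_isog (hg : 2 ≤ g) (hD : IsSetting g D) : ∃ κ : ℕ × ℕ → ℕ, Computable κ ∧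
    ∀ k c, SmallPointsIsog D k c → SmallPoints D k (κ (k, c)) := by
  obtain ⟨a, ha⟩ := small hD hg
  obtain ⟨κ, hκ, hκ'⟩ := hD.isogeny
  obtain ⟨c₀, hc₀⟩ := hD.noether
  refine ⟨fun z => 12 * κ (z.1, a * z.2) + (c₀ + 1), ?_, fun k c h x hx => ?_⟩
  · have a1 : Computable fun z : ℕ × ℕ => a * z.2 :=
      (Primrec.nat_mul.to_comp).comp (Computable.const a) Computable.snd
    have a2 : Computable fun z : ℕ × ℕ => κ (z.1, a * z.2) :=
      hκ.comp (Computable.pair Computable.fst a1)
    exact (Primrec.nat_add.to_comp).comp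
      ((Primrec.nat_mul.to_comp).comp (Computable.const 12) a2) (Computable.const (c₀ + 1))
  · obtain ⟨x', h1, h2, h3⟩ := h x hx
    have h4 := (ha k x' c h1 h3).2
    have h5 := hκ' k _ x x' hx h1 h2 h4
    have h6 := hc₀ k x hx
    obtain ⟨y, hy⟩ := hD.zhang k x hx
    refine ⟨y, hy.trans ?_⟩
    have hg' : (2 : ℝ) ≤ g := by exact_mod_cast hg
    have h7 : D.w x ≤ 12 * (κ (k, a * c) : ℝ) + c₀ := by linarith
    have h8 : (0 : ℝ) ≤ 12 * (κ (k, a * c) : ℝ) + c₀ := by positivity
    have h9 : D.w x / (2 * g - 2) ≤ 12 * (κ (k, a * c) : ℝ) + c₀ := by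
      rw [div_le_iff₀ (by linarith)]
      nlinarith
    push_cast
    linarith

/-- the maximum of `c (ext (k, i'), m)` for `k ≤ i` and `i' ≤ n` -/
def mxAll (D : Setting) (c : ℕ × ℕ → ℕ) (z : (ℕ × ℕ) × ℕ) : ℕ :=
  mxx (fun w : ((ℕ × ℕ) × ℕ) × ℕ =>
    mxx (fun u : (((ℕ × ℕ) × ℕ) × ℕ) × ℕ => c (D.ext (u.1.2, u.2), u.1.1.2)) w w.1.1.2)
    z z.1.1

lemma mxAll_computable (he : Computable D.ext) {c : ℕ × ℕ → ℕ} (hc : Computable c) :
    Computable (mxAll D c) := by
  have a1 : Computable fun u : (((ℕ × ℕ) × ℕ) × ℕ) × ℕ => (u.1.2, u.2) :=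
    Computable.pair (Computable.snd.comp Computable.fst) Computable.snd
  have a2 : Computable fun u : (((ℕ × ℕ) × ℕ) × ℕ) × ℕ => (D.ext (u.1.2, u.2), u.1.1.2) :=
    Computable.pair (he.comp a1) (Computable.snd.comp (Computable.fst.comp Computable.fst))
  have a3 : Computable fun u : (((ℕ × ℕ) × ℕ) × ℕ) × ℕ => c (D.ext (u.1.2, u.2), u.1.1.2) :=
    hc.comp a2
  have a4 := mxx_computable a3
  have a5 : Computable fun w : ((ℕ × ℕ) × ℕ) × ℕ => (w, w.1.1.2) :=
    Computable.pair Computable.id (Computable.snd.comp (Computable.fst.comp Computable.fst))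
  have a6 := a4.comp a5
  have a7 := mxx_computable a6
  have a8 : Computable fun z : (ℕ × ℕ) × ℕ => (z, z.1.1) :=
    Computable.pair Computable.id (Computable.fst.comp Computable.fst)
  exact a7.comp a8

lemma le_mxAll (D : Setting) (c : ℕ × ℕ → ℕ) {i n m k i' : ℕ} (hk : k ≤ i) (hi : i' ≤ n) :
    c (D.ext (k, i'), m) ≤ mxAll D c ((i, n), m) := by
  have h1 := le_mxx (fun u : (((ℕ × ℕ) × ℕ) × ℕ) × ℕ => c (D.ext (u.1.2, u.2), u.1.1.2))
    (((i, n), m), k) hi
  have h2 := le_mxx (fun w : ((ℕ × ℕ) × ℕ) × ℕ =>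
    mxx (fun u : (((ℕ × ℕ) × ℕ) × ℕ) × ℕ => c (D.ext (u.1.2, u.2), u.1.1.2)) w w.1.1.2)
    ((i, n), m) hk
  exact h1.trans h2

lemma q1_of_stages {C : ℕ → ℕ} (hC : Computable C) (h : ∀ i, ∀ k ≤ i, SmallPoints D k (C i)) :
    ∃ c : ℕ → ℕ, Computable c ∧ ∀ k x, D.Good k x → ∃ y, D.pt x y ≤ c k :=
  ⟨C, hC, fun k => h k k le_rfl⟩

/-- **Szpiro's small points conjecture: boundedly many guesses.** See the explanations above. -/
theorem result (hg : 2 ≤ g) (hD : IsSetting g D) : List.TFAE [
    ∃ c : ℕ → ℕ, Computable c ∧ ∀ k x, D.Good k x → ∃ y, D.pt x y ≤ c k,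
    ∃ (l : ℕ) (r : ℕ → Bool) (F : ℕ × ℕ →. ℕ), Computable r ∧ Partrec F ∧
      (∀ m, ∃ j ≥ m, r j = true) ∧
      ∀ j, r j = true → ∃ b < l, ∃ c ∈ F (j, b), ∀ k ≤ j, ∃ i, SmallPoints D (D.ext (k, i)) c,
    ∃ (l : ℕ) (M : ℕ → ℕ) (r : ℕ → Bool) (F : ℕ × ℕ →. ℕ), Computable M ∧ Computable r ∧ Partrec F ∧
      (∀ m, ∃ j ≥ m, r j = true) ∧
      ∀ j, r j = true → ∃ b < l, ∃ c ∈ F (j, b), ∀ k ≤ j, ∃ i ≤ M j,
        SmallPointsIsog D (D.ext (k, i)) c,
    ∃ (l : ℕ) (M : ℕ → ℕ) (r : ℕ → Bool) (G : ℕ × ℕ → ℕ), Computable M ∧ Computable r ∧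
      Computable G ∧ (∀ m, ∃ j ≥ m, r j = true) ∧
      ∀ j, r j = true → ∃ s₀, (∀ s ≥ s₀, G (j, s) = G (j, s₀)) ∧
        {s | G (j, s + 1) ≠ G (j, s)}.ncard ≤ l ∧
        ∀ k ≤ j, ∃ i ≤ M j, SmallPointsIsog D (D.ext (k, i)) (G (j, s₀))] := by
  have hone : Computable fun _ : ℕ => (1 : ℕ) := Computable.const 1
  have hzero : Computable fun _ : ℕ => (0 : ℕ) := Computable.const 0
  tfae_have 1 → 4 := by
    rintro ⟨c, h1, h2⟩
    refine ⟨0, fun _ => 0, fun _ => true, fun x => mxAll D (fun u => c u.1) ((x.1, 0), 0),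
      hzero, Computable.const true, ?_, fun m => ⟨m, le_rfl, rfl⟩,
      fun j _ => ⟨0, fun _ _ => rfl, ?_, ?_⟩⟩
    · have a1 : Computable fun u : ℕ × ℕ => c u.1 := h1.comp Computable.fst
      have a2 : Computable fun x : ℕ × ℕ => ((x.1, 0), 0) :=
        Computable.pair (Computable.pair Computable.fst (Computable.const 0)) (Computable.const 0)
      exact (mxAll_computable hD.ext_computable a1).comp a2
    · simp
    · intro k hk
      refine ⟨0, le_rfl, fun x hx => ⟨x, hx, (hD.faltings _ x x hx hx).1 rfl, ?_⟩⟩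
      obtain ⟨y, hy⟩ := h2 _ x hx
      refine ⟨y, hy.trans ?_⟩
      exact_mod_cast le_mxAll D (fun u => c u.1) (m := 0) hk le_rfl
  tfae_have 4 → 3 := by
    rintro ⟨l, M, r, G, hM, hr, hG, hdens, hadv⟩
    obtain ⟨F, hF, h⟩ := bounded_of_mind_changes_exceptions
      (fun j c _ => ∀ k ≤ j, ∃ i ≤ M j, SmallPointsIsog D (D.ext (k, i)) c) l (fun _ => 0) r G hG hadv
    exact ⟨l + 1, M, r, F, hM, hr, hF, hdens, h⟩
  tfae_have 3 → 1 := by
    rintro ⟨l, M, r, F, hM, hr, hF, hdens, hadv⟩
    obtain ⟨κ, hκ, hκ'⟩ := small_of_isog hg hD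
    have hτ : Computable fun z : (ℕ × ℕ) × ℕ => mxAll D κ ((z.1.2, M z.1.2), z.2) := by
      have a1 : Computable fun z : (ℕ × ℕ) × ℕ => z.1.2 := Computable.snd.comp Computable.fst
      have a2 : Computable fun z : (ℕ × ℕ) × ℕ => ((z.1.2, M z.1.2), z.2) :=
        Computable.pair (Computable.pair a1 (hM.comp a1)) Computable.snd
      exact (mxAll_computable hD.ext_computable hκ).comp a2
    obtain ⟨C, hC, hC'⟩ := bounded_of_advice_exceptions
      (fun i c => ∀ k ≤ i, SmallPoints D k c)
      (fun j c _ => ∀ k ≤ j, ∃ i ≤ M j, SmallPointsIsog D (D.ext (k, i)) c)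
      (fun _ => 1) (fun _ => 0) hone hzero _ hτ
      (fun i c c' hc h k hk x hx => by
        obtain ⟨y, hy⟩ := h k hk x hx
        exact ⟨y, hy.trans (by exact_mod_cast hc)⟩)
      (fun i j c hij h k hk => h k (hk.trans hij))
      (fun i j c _ hij _ h k hk => by
        obtain ⟨i', h1, h2⟩ := h k (hk.trans hij)
        refine smallPoints_of_ext hD (i := i') fun x hx => ?_
        obtain ⟨y, hy⟩ := hκ' _ _ h2 x hx
        refine ⟨y, hy.trans ?_⟩
        exact_mod_cast le_mxAll D κ (hk.trans hij) h1)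
      l (fun _ => 0) hzero r hr F hF
      (fun m => by
        obtain ⟨j, h1, h2⟩ := hdens m
        exact ⟨j, h1, h2, by simp⟩)
      hadv
    exact q1_of_stages hC hC'
  tfae_have 1 → 2 := by
    rintro ⟨c, h1, h2⟩
    have hF : Computable fun x : ℕ × ℕ => mxAll D (fun u => c u.1) ((x.1, 0), 0) := by
      have a1 : Computable fun u : ℕ × ℕ => c u.1 := h1.comp Computable.fst
      have a2 : Computable fun x : ℕ × ℕ => ((x.1, 0), 0) :=
        Computable.pair (Computable.pair Computable.fst (Computable.const 0)) (Computable.const 0)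
      exact (mxAll_computable hD.ext_computable a1).comp a2
    refine ⟨1, fun _ => true, _, Computable.const true, hF.partrec, fun m => ⟨m, le_rfl, rfl⟩,
      fun j _ => ⟨0, one_pos, _, Part.mem_some _, fun k hk => ⟨0, fun x hx => ?_⟩⟩⟩
    obtain ⟨y, hy⟩ := h2 _ x hx
    refine ⟨y, hy.trans ?_⟩
    exact_mod_cast le_mxAll D (fun u => c u.1) (m := 0) hk le_rfl
  tfae_have 2 → 1 := by
    rintro ⟨l, r, F, hr, hF, hdens, hadv⟩
    obtain ⟨C, hC, hC'⟩ := bounded_of_advice_exceptions
      (fun i c => ∀ k ≤ i, SmallPoints D k c)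
      (fun j c _ => ∀ k ≤ j, ∃ i, SmallPoints D (D.ext (k, i)) c)
      (fun _ => 1) (fun _ => 0) hone hzero (fun z => z.2) Computable.snd
      (fun i c c' hc h k hk x hx => by
        obtain ⟨y, hy⟩ := h k hk x hx
        exact ⟨y, hy.trans (by exact_mod_cast hc)⟩)
      (fun i j c hij h k hk => h k (hk.trans hij))
      (fun i j c _ hij _ h k hk => by
        obtain ⟨i', h2⟩ := h k (hk.trans hij)
        exact smallPoints_of_ext hD h2)
      l (fun _ => 0) hzero r hr F hF
      (fun m => by
        obtain ⟨j, h1, h2⟩ := hdens m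
        exact ⟨j, h1, h2, by simp⟩)
      hadv
    exact q1_of_stages hC hC'
  tfae_finish

end Pool.Agent.Results.MP_fe3691_nt.BoundedAdvice
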